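import Pool.Agent.N929.EX.Stm

/-!
# Occupying and freeing one slot (`S_TOG`)
-/

set_option autoImplicit false
set_option linter.unusedVariables false

namespace Pool.Agent.N400.EX

open Pool.Agent.H976R2 Pool.Agent.H976R2.Dir Finset Pool.Agent.N929.EX
open scoped Classical

noncomputable section

/-- the direction orthogonal to `d` to the other side of the square `p` -/
def sd (p v : ℤ × ℤ) (d : Dir) : Dir :=
  match d with
  | Dir.E => if v.2 = p.2 then Dir.N else Dir.S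
  | Dir.W => if v.2 = p.2 then Dir.N else Dir.S
  | Dir.N => if v.1 = p.1 then Dir.E else Dir.W
  | Dir.S => if v.1 = p.1 then Dir.E else Dir.W

/-- first time at a corner of `p` -/
def idx (w : List Dir) (p : ℤ × ℤ) : ℕ := sInf {j | Cn p (Lip.PP w j)}

lemma idx_eq {w : List Dir} {p : ℤ × ℤ} {k l : ℕ} (h : At w p k l) : idx w p = k := by
  unfold idx
  apply le_antisymm
  · apply Nat.sInf_le
    exact (h.2 k (by have := h.1; omega)).2 ⟨le_refl _, by omega⟩
  · apply le_csInf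
    · exact ⟨k, (h.2 k (by have := h.1; omega)).2 ⟨le_refl _, by omega⟩⟩
    · intro j hj
      by_contra hc
      have := h.1
      exact absurd ((h.2 j (by omega)).1 hj).1 (by omega)

/-- the occupying map -/
def ff (w : List Dir) (p : ℤ × ℤ) : List Dir :=
  ins w (idx w p) (sd p (Lip.PP w (idx w p)) (lt w (idx w p)))

/-- the freeing map -/
def gg (w : List Dir) (p : ℤ × ℤ) : List Dir := del w (idx w p)

lemma bashA (p v : ℤ × ℤ) (d : Dir) (h0 : Cn p v) (h1 : Cn p (v + Lip.dv d)) :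
    perp (sd p v d) d ∧ Cn p (v + Lip.dv (sd p v d)) ∧
      Cn p (v + Lip.dv (sd p v d) + Lip.dv d) ∧
      v + Lip.dv (sd p v d) ≠ v ∧ v + Lip.dv (sd p v d) ≠ v + Lip.dv d ∧
      v + Lip.dv (sd p v d) + Lip.dv d ≠ v ∧
      v + Lip.dv (sd p v d) + Lip.dv d ≠ v + Lip.dv d := by
  obtain ⟨px, py⟩ := p
  obtain ⟨vx, vy⟩ := v
  cases d
  · by_cases h : vy = py
    · simp [Cn, Lip.dv, dx, dy, perp, sd, h] at *
      omega
    · simp [Cn, Lip.dv, dx, dy, perp, sd, h] at *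
      omega
  · by_cases h : vy = py
    · simp [Cn, Lip.dv, dx, dy, perp, sd, h] at *
      omega
    · simp [Cn, Lip.dv, dx, dy, perp, sd, h] at *
      omega
  · by_cases h : vx = px
    · simp [Cn, Lip.dv, dx, dy, perp, sd, h] at *
      omega
    · simp [Cn, Lip.dv, dx, dy, perp, sd, h] at *
      omega
  · by_cases h : vx = px
    · simp [Cn, Lip.dv, dx, dy, perp, sd, h] at *
      omega
    · simp [Cn, Lip.dv, dx, dy, perp, sd, h] at *
      omega

lemma bashB (p v : ℤ × ℤ) (d0 d1 d2 : Dir) (h0 : Cn p v) (h1 : Cn p (v + Lip.dv d0))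
    (h2 : Cn p (v + Lip.dv d0 + Lip.dv d1)) (h3 : Cn p (v + Lip.dv d0 + Lip.dv d1 + Lip.dv d2))
    (n02 : v ≠ v + Lip.dv d0 + Lip.dv d1)
    (n13 : v + Lip.dv d0 ≠ v + Lip.dv d0 + Lip.dv d1 + Lip.dv d2)
    (n03 : v ≠ v + Lip.dv d0 + Lip.dv d1 + Lip.dv d2) :
    d2 = opp d0 ∧ perp d0 d1 ∧ d0 = sd p v d1 := by
  obtain ⟨px, py⟩ := p
  obtain ⟨vx, vy⟩ := v
  cases d0 <;> cases d1 <;> cases d2 <;>
    simp only [Cn, Lip.dv, dx, dy, opp, perp, sd, Prod.mk_add_mk, ne_eq, Prod.mk.injEq] at * <;>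
    first
    | (exfalso; omega)
    | (refine ⟨trivial, by norm_num, ?_⟩; split_ifs <;> first | rfl | (exfalso; omega))

lemma vis_PP {w : List Dir} {x : ℤ × ℤ} (h : vis w x) : ∃ j, j ≤ w.length ∧ Lip.PP w j = x := by
  obtain ⟨a, b, rfl, h1, h2⟩ := h
  refine ⟨a.length, by simp, ?_⟩
  unfold Lip.PP
  rw [List.take_left]
  exact Prod.ext h1 h2

/-- free slot: the bump can be inserted -/
lemma coreA {w : List Dir} {p : ℤ × ℤ} {k : ℕ} (hw : Saw w) (h : At w p k 1) :
    Saw (ins w k (sd p (Lip.PP w k) (lt w k))) ∧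
      At (ins w k (sd p (Lip.PP w k) (lt w k))) p k 3 := by
  have hk : k + 1 ≤ w.length := h.1
  have hk' : k < w.length := by omega
  have c0 : Cn p (Lip.PP w k) := (h.2 k (by omega)).2 ⟨le_refl _, by omega⟩
  have c1 : Cn p (Lip.PP w (k + 1)) := (h.2 (k + 1) hk).2 ⟨by omega, le_refl _⟩
  rw [Lip.PP_succ w k hk'] at c1
  obtain ⟨b1, b2, b3, b4, b5, b6, b7⟩ := bashA p (Lip.PP w k) (lt w k) c0 c1
  set e := sd p (Lip.PP w k) (lt w k) with he
  have nv : ∀ x, Cn p x → x ≠ Lip.PP w k → x ≠ Lip.PP w k + Lip.dv (lt w k) → ¬ vis w x := by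
    intro x hx h1 h2 hv
    obtain ⟨j, hj, hj'⟩ := vis_PP hv
    have := (h.2 j hj).1 (by rw [hj']; exact hx)
    have hcase : j = k ∨ j = k + 1 := by omega
    rcases hcase with rfl | rfl
    · exact h1 hj'.symm
    · apply h2
      rw [← Lip.PP_succ w k hk']
      exact hj'.symm
  have hadm : (k, e) ∈ adm w := by
    rw [Lip.mem_adm hw]
    exact ⟨hk', b1, nv _ b2 b4 b5, nv _ b3 b6 b7⟩
  have hsaw : Saw (ins w k e) := (Pool.Agent.H976R2.mem_adm.1 hadm).2.2
  refine ⟨hsaw, ?_, ?_⟩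
  · rw [Lip.ins_length w k e hk']; omega
  · intro j hj
    rw [Lip.ins_length w k e hk'] at hj
    rcases Nat.lt_or_ge k j with hkj | hkj
    · by_cases hj1 : j = k + 1
      · subst hj1
        rw [Lip.PP_succ _ k (by rw [Lip.ins_length w k e hk']; omega),
          Lip.PP_ins_le w k k e hk' le_rfl, Lip.lt_ins_0 w k e hk']
        exact ⟨fun _ => by omega, fun _ => b2⟩
      · by_cases hj2 : j = k + 2
        · subst hj2
          rw [show k + 2 = (k + 1) + 1 from rfl,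
            Lip.PP_succ _ (k + 1) (by rw [Lip.ins_length w k e hk']; omega),
            Lip.PP_succ _ k (by rw [Lip.ins_length w k e hk']; omega),
            Lip.PP_ins_le w k k e hk' le_rfl, Lip.lt_ins_0 w k e hk', Lip.lt_ins_1 w k e hk']
          exact ⟨fun _ => by omega, fun _ => b3⟩
        · obtain ⟨i, rfl⟩ : ∃ i, j = i + 2 := ⟨j - 2, by omega⟩
          rw [Lip.PP_ins_gt w k i e hk' (by omega), h.2 i (by omega)]
          omega
    · rw [Lip.PP_ins_le w k j e hk' hkj, h.2 j (by omega)]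
      omega

/-- occupied slot: the bump can be removed -/
lemma coreB {w' : List Dir} {p : ℤ × ℤ} {k : ℕ} (hw' : Saw w') (h : At w' p k 3) :
    Saw (del w' k) ∧ At (del w' k) p k 1 ∧
      ins (del w' k) k (sd p (Lip.PP (del w' k) k) (lt (del w' k) k)) = w' ∧
      (del w' k).length = w'.length - 2 := by
  have hk : k + 3 ≤ w'.length := h.1
  have c0 : Cn p (Lip.PP w' k) := (h.2 k (by omega)).2 ⟨le_refl _, by omega⟩
  have c1 : Cn p (Lip.PP w' (k + 1)) := (h.2 (k + 1) (by omega)).2 ⟨by omega, by omega⟩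
  have c2 : Cn p (Lip.PP w' (k + 2)) := (h.2 (k + 2) (by omega)).2 ⟨by omega, by omega⟩
  have c3 : Cn p (Lip.PP w' (k + 3)) := (h.2 (k + 3) (by omega)).2 ⟨by omega, by omega⟩
  have e1 : Lip.PP w' (k + 1) = Lip.PP w' k + Lip.dv (lt w' k) := Lip.PP_succ w' k (by omega)
  have e2 : Lip.PP w' (k + 2) = Lip.PP w' k + Lip.dv (lt w' k) + Lip.dv (lt w' (k + 1)) := by
    rw [← e1]; exact Lip.PP_succ w' (k + 1) (by omega)
  have e3 : Lip.PP w' (k + 3) = Lip.PP w' k + Lip.dv (lt w' k) + Lip.dv (lt w' (k + 1)) +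
      Lip.dv (lt w' (k + 2)) := by
    rw [← e2]; exact Lip.PP_succ w' (k + 2) (by omega)
  have n02 : Lip.PP w' k ≠ Lip.PP w' k + Lip.dv (lt w' k) + Lip.dv (lt w' (k + 1)) := by
    rw [← e2]
    intro hc
    have := Lip.PP_inj hw' (by omega) (by omega) hc
    omega
  have n13 : Lip.PP w' k + Lip.dv (lt w' k) ≠ Lip.PP w' k + Lip.dv (lt w' k) +
      Lip.dv (lt w' (k + 1)) + Lip.dv (lt w' (k + 2)) := by
    rw [← e3, ← e1]
    intro hc
    have := Lip.PP_inj hw' (by omega) (by omega) hc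
    omega
  have n03 : Lip.PP w' k ≠ Lip.PP w' k + Lip.dv (lt w' k) +
      Lip.dv (lt w' (k + 1)) + Lip.dv (lt w' (k + 2)) := by
    rw [← e3]
    intro hc
    have := Lip.PP_inj hw' (by omega) (by omega) hc
    omega
  rw [e1] at c1
  rw [e2] at c2
  rw [e3] at c3
  obtain ⟨b1, b2, b3⟩ := bashB p _ _ _ _ c0 c1 c2 c3 n02 n13 n03
  have hlen : (del w' k).length = w'.length - 2 := length_del (by omega)
  have hk' : k < (del w' k).length := by omega
  have hins : ins (del w' k) k (lt w' k) = w' := ins_del (by omega) b1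
  have hlt : lt (del w' k) k = lt w' (k + 1) := lt_del (by omega)
  have hsaw : Saw (del w' k) := by
    unfold del
    have := split3 (w := w') (i := k) (by omega)
    rw [b1] at this
    rw [this] at hw'
    exact saw_delete hw'
  have hP : ∀ j, j ≤ k → Lip.PP w' j = Lip.PP (del w' k) j := by
    intro j hj
    have := Lip.PP_ins_le (del w' k) k j (lt w' k) hk' hj
    rw [hins] at this
    exact this
  have hP' : ∀ j, k < j → Lip.PP w' (j + 2) = Lip.PP (del w' k) j := by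
    intro j hj
    have := Lip.PP_ins_gt (del w' k) k j (lt w' k) hk' hj
    rw [hins] at this
    exact this
  refine ⟨hsaw, ⟨by omega, ?_⟩, ?_, hlen⟩
  · intro j hj
    rcases Nat.lt_or_ge k j with hkj | hkj
    · rw [← hP' j hkj, h.2 (j + 2) (by omega)]
      omega
    · rw [← hP j hkj, h.2 j (by omega)]
      omega
  · rw [← hP k le_rfl, hlt, ← b3]
    exact hins

lemma In_lt {s s' : Fin 3} {T : ℕ × ℕ} {k k' l : ℕ} (hT : T.1 ≤ T.2) (h : In s T k 1)
    (hk : k' + l < k) : In s' T k' l ↔ In s' (up s T) k' l := by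
  unfold In up at *
  fin_cases s <;> fin_cases s' <;> simp at h ⊢ <;> omega

lemma In_gt {s s' : Fin 3} {T : ℕ × ℕ} {k k' l : ℕ} (hT : T.1 ≤ T.2) (h : In s T k 1)
    (hk : k + 1 < k') : In s' T k' l ↔ In s' (up s T) (k' + 2) l := by
  unfold In up at *
  fin_cases s <;> fin_cases s' <;> simp at h ⊢ <;> omega

lemma In_self {s s' : Fin 3} {T : ℕ × ℕ} {k : ℕ} (hT : T.1 ≤ T.2) (h : In s T k 1) :
    (In s' T k 1 ↔ s' = s) ∧ (In s' (up s T) k 3 ↔ s' = s) := by
  unfold In up at *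
  fin_cases s <;> fin_cases s' <;> simp at h ⊢ <;> omega

lemma In_up {s : Fin 3} {T : ℕ × ℕ} {k : ℕ} (h : In s (up s T) k 3) : In s T k 1 := by
  unfold In up at *
  fin_cases s <;> simp at h ⊢ <;> omega

lemma At_uniq {w : List Dir} {p : ℤ × ℤ} {k l k' l' : ℕ} (h : At w p k l) (h' : At w p k' l') :
    k = k' ∧ l = l' := by
  have a1 := h.1
  have a2 := h'.1
  have b1 := (h'.2 k (by omega)).1 ((h.2 k (by omega)).2 ⟨le_refl _, by omega⟩)
  have b2 := (h.2 k' (by omega)).1 ((h'.2 k' (by omega)).2 ⟨le_refl _, by omega⟩)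
  have b3 := (h'.2 (k + l) (by omega)).1 ((h.2 (k + l) (by omega)).2 ⟨by omega, by omega⟩)
  have b4 := (h.2 (k' + l') (by omega)).1 ((h'.2 (k' + l') (by omega)).2 ⟨by omega, by omega⟩)
  omega

section transport

variable {w : List Dir} {e : Dir} {p q : ℤ × ℤ} {k : ℕ}

/-- the corners of `q` -/
lemma At_fwd (h : At w p k 1) (h' : At (ins w k e) p k 3)
    (hpq : ∀ v, ¬ (Cn p v ∧ Cn q v)) {k' l : ℕ} (hq : At w q k' l) :
    (k' + l < k ∧ At (ins w k e) q k' l) ∨ (k + 1 < k' ∧ At (ins w k e) q (k' + 2) l) := by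
  have hk : k < w.length := by have := h.1; omega
  have a1 := h.1
  have a2 := hq.1
  have n0 : ¬ (k' ≤ k ∧ k ≤ k' + l) := fun hc =>
    hpq _ ⟨(h.2 k (by omega)).2 ⟨le_refl _, by omega⟩, (hq.2 k (by omega)).2 hc⟩
  have n1 : ¬ (k' ≤ k + 1 ∧ k + 1 ≤ k' + l) := fun hc =>
    hpq _ ⟨(h.2 (k + 1) (by omega)).2 ⟨by omega, by omega⟩, (hq.2 (k + 1) (by omega)).2 hc⟩
  have m : ∀ j, k ≤ j → j ≤ k + 3 → ¬ Cn q (Lip.PP (ins w k e) j) := fun j hj1 hj2 hc =>
    hpq _ ⟨(h'.2 j (by rw [Lip.ins_length w k e hk]; omega)).2 ⟨hj1, hj2⟩, hc⟩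
  have hcase : k' + l < k ∨ k + 1 < k' := by omega
  rcases hcase with hc | hc
  · refine Or.inl ⟨hc, ?_, ?_⟩
    · rw [Lip.ins_length w k e hk]; omega
    · intro j hj
      rw [Lip.ins_length w k e hk] at hj
      rcases Nat.lt_or_ge k j with hkj | hkj
      · rcases Nat.lt_or_ge (k + 3) j with hj3 | hj3
        · obtain ⟨i, rfl⟩ : ∃ i, j = i + 2 := ⟨j - 2, by omega⟩
          rw [Lip.PP_ins_gt w k i e hk (by omega), hq.2 i (by omega)]
          omega
        · exact ⟨fun hcn => absurd hcn (m j (by omega) hj3), fun hcn => by omega⟩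
      · rw [Lip.PP_ins_le w k j e hk hkj, hq.2 j (by omega)]
  · refine Or.inr ⟨hc, ?_, ?_⟩
    · rw [Lip.ins_length w k e hk]; omega
    · intro j hj
      rw [Lip.ins_length w k e hk] at hj
      rcases Nat.lt_or_ge k j with hkj | hkj
      · rcases Nat.lt_or_ge (k + 2) j with hj3 | hj3
        · obtain ⟨i, rfl⟩ : ∃ i, j = i + 2 := ⟨j - 2, by omega⟩
          rw [Lip.PP_ins_gt w k i e hk (by omega), hq.2 i (by omega)]
          omega
        · exact ⟨fun hcn => absurd hcn (m j (by omega) (by omega)), fun hcn => by omega⟩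
      · rw [Lip.PP_ins_le w k j e hk hkj, hq.2 j (by omega)]
        omega

lemma At_bwd (h : At w p k 1) (h' : At (ins w k e) p k 3)
    (hpq : ∀ v, ¬ (Cn p v ∧ Cn q v)) {k' l : ℕ} (hq : At (ins w k e) q k' l) :
    (k' + l < k ∧ At w q k' l) ∨ (∃ k'', k' = k'' + 2 ∧ k + 1 < k'' ∧ At w q k'' l) := by
  have hk : k < w.length := by have := h.1; omega
  have a1 := h.1
  have a2 := hq.1
  rw [Lip.ins_length w k e hk] at a2
  have n : ∀ j, k ≤ j → j ≤ k + 3 → ¬ (k' ≤ j ∧ j ≤ k' + l) := fun j hj1 hj2 hc =>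
    hpq _ ⟨(h'.2 j (by rw [Lip.ins_length w k e hk]; omega)).2 ⟨hj1, hj2⟩,
      (hq.2 j (by rw [Lip.ins_length w k e hk]; omega)).2 hc⟩
  have n0 := n k (by omega) (by omega)
  have n1 := n (k + 1) (by omega) (by omega)
  have n2 := n (k + 2) (by omega) (by omega)
  have n3 := n (k + 3) (by omega) (by omega)
  have hcase : k' + l < k ∨ k + 3 < k' := by omega
  rcases hcase with hc | hc
  · refine Or.inl ⟨hc, by omega, ?_⟩
    intro j hj
    rcases Nat.lt_or_ge k j with hkj | hkj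
    · rw [← Lip.PP_ins_gt w k j e hk hkj, hq.2 (j + 2) (by rw [Lip.ins_length w k e hk]; omega)]
      omega
    · rw [← Lip.PP_ins_le w k j e hk hkj, hq.2 j (by rw [Lip.ins_length w k e hk]; omega)]
  · refine Or.inr ⟨k' - 2, by omega, by omega, by omega, ?_⟩
    intro j hj
    rcases Nat.lt_or_ge k j with hkj | hkj
    · rw [← Lip.PP_ins_gt w k j e hk hkj, hq.2 (j + 2) (by rw [Lip.ins_length w k e hk]; omega)]
      omega
    · rw [← Lip.PP_ins_le w k j e hk hkj, hq.2 j (by rw [Lip.ins_length w k e hk]; omega)]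
      omega

/-- the slots of `q` -/
lemma slot_iff (h : At w p k 1) (h' : At (ins w k e) p k 3)
    (hpq : ∀ v, ¬ (Cn p v ∧ Cn q v)) {s : Fin 3} {T : ℕ × ℕ} (hT : T.1 ≤ T.2) (hs : In s T k 1)
    (s' : Fin 3) (l : ℕ) :
    (∃ k', At (ins w k e) q k' l ∧ In s' (up s T) k' l) ↔ (∃ k', At w q k' l ∧ In s' T k' l) := by
  constructor
  · rintro ⟨k', h1, h2⟩
    rcases At_bwd h h' hpq h1 with ⟨h3, h4⟩ | ⟨k'', rfl, h3, h4⟩
    · exact ⟨k', h4, (In_lt hT hs h3).2 h2⟩
    · exact ⟨k'', h4, (In_gt hT hs h3).2 h2⟩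
  · rintro ⟨k', h1, h2⟩
    rcases At_fwd h h' hpq h1 with ⟨h3, h4⟩ | ⟨h3, h4⟩
    · exact ⟨k', h4, (In_lt hT hs h3).1 h2⟩
    · exact ⟨k' + 2, h4, (In_gt hT hs h3).1 h2⟩

end transport

/-- the step -/
lemma step {L : Finset (ℤ × ℤ)} (hL : CF L) {w : List Dir} {e : Dir} {p : ℤ × ℤ} {k : ℕ}
    (hp : p ∈ L) (h : At w p k 1) (h' : At (ins w k e) p k 3) {s : Fin 3} {T : ℕ × ℕ}
    (hT : T.1 ≤ T.2) (hs : In s T k 1) : Step L s T w p (ins w k e) := by
  have hk : k < w.length := by have := h.1; omega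
  have hother : ∀ q ∈ L, q ≠ p → ∀ v, ¬ (Cn p v ∧ Cn q v) := fun q hq hne =>
    hL p hp q hq (fun hh => hne hh.symm)
  have e1 : ∀ (s' : Fin 3) (q : ℤ × ℤ) (ww : List Dir) (TT : ℕ × ℕ),
      (∃ k, (At ww q k 1 ∧ In s' TT k 1) ∨ (At ww q k 3 ∧ In s' TT k 3)) ↔
      (∃ k, At ww q k 1 ∧ In s' TT k 1) ∨ (∃ k, At ww q k 3 ∧ In s' TT k 3) := by
    intro s' q ww TT
    exact exists_or
  have p1 : ∀ s', (∃ k, At w p k 1 ∧ In s' T k 1) ↔ s' = s := by
    intro s'
    rw [← (In_self hT hs (s' := s')).1]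
    constructor
    · rintro ⟨k', h1, h2⟩
      obtain ⟨rfl, -⟩ := At_uniq h h1
      exact h2
    · intro h2
      exact ⟨k, h, h2⟩
  have p3 : ∀ s', ¬ (∃ k, At w p k 3 ∧ In s' T k 3) := by
    rintro s' ⟨k', h1, -⟩
    obtain ⟨-, h3⟩ := At_uniq h h1
    omega
  have p1' : ∀ s', ¬ (∃ k', At (ins w k e) p k' 1 ∧ In s' (up s T) k' 1) := by
    rintro s' ⟨k', h1, -⟩
    obtain ⟨-, h3⟩ := At_uniq h' h1
    omega
  have p3' : ∀ s', (∃ k', At (ins w k e) p k' 3 ∧ In s' (up s T) k' 3) ↔ s' = s := by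
    intro s'
    rw [← (In_self hT hs (s' := s')).2]
    constructor
    · rintro ⟨k', h1, h2⟩
      obtain ⟨rfl, -⟩ := At_uniq h' h1
      exact h2
    · intro h2
      exact ⟨k, h', h2⟩
  refine ⟨?_, ?_, ?_, ?_, ?_, ?_, ?_⟩
  · -- m1
    unfold In at hs
    unfold up
    rcases hs with ⟨rfl, h1⟩ | ⟨rfl, h1, h2⟩ | ⟨rfl, h1⟩
    · simp only [if_true]
      exact Lip.PP_ins_gt w k T.1 e hk (by omega)
    · have : ((1 : Fin 3) = 0) = False := by simp
      simp only [this, if_false, add_zero]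
      exact Lip.PP_ins_le w k T.1 e hk (by omega)
    · have : ((2 : Fin 3) = 0) = False := by simp
      simp only [this, if_false, add_zero]
      exact Lip.PP_ins_le w k T.1 e hk (by omega)
  · -- m2
    unfold In at hs
    unfold up
    rcases hs with ⟨rfl, h1⟩ | ⟨rfl, h1, h2⟩ | ⟨rfl, h1⟩
    · have : ((0 : Fin 3) = 2) = False := by simp
      simp only [this, if_false]
      exact Lip.PP_ins_gt w k T.2 e hk (by omega)
    · have : ((1 : Fin 3) = 2) = False := by simp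
      simp only [this, if_false]
      exact Lip.PP_ins_gt w k T.2 e hk (by omega)
    · simp only [if_true, add_zero]
      exact Lip.PP_ins_le w k T.2 e hk (by omega)
  · -- dd
    intro s'
    unfold DD
    refine Finset.filter_congr fun q hq => ?_
    rw [e1, e1]
    by_cases hqp : q = p
    · subst hqp
      rw [p1, p3']
      constructor
      · rintro (h1 | h1)
        · exact absurd h1 (p1' s')
        · exact Or.inl h1
      · rintro (h1 | h1)
        · exact Or.inr h1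
        · exact absurd h1 (p3 s')
    · rw [slot_iff h h' (hother q hq hqp) hT hs, slot_iff h h' (hother q hq hqp) hT hs]
  · -- oo
    intro s' hs'
    unfold N929.EX.OO
    refine Finset.filter_congr fun q hq => ?_
    by_cases hqp : q = p
    · subst hqp
      rw [p3']
      exact ⟨fun h1 => absurd h1 hs', fun h1 => absurd h1 (p3 s')⟩
    · rw [slot_iff h h' (hother q hq hqp) hT hs]
  · -- mem
    unfold DD
    rw [Finset.mem_filter]
    exact ⟨hp, k, Or.inl ⟨h, hs⟩⟩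
  · -- nm
    unfold N929.EX.OO
    rw [Finset.mem_filter]
    rintro ⟨-, h1⟩
    exact p3 s h1
  · -- os
    ext q
    unfold N929.EX.OO
    rw [Finset.mem_insert, Finset.mem_filter, Finset.mem_filter]
    by_cases hqp : q = p
    · subst hqp
      rw [p3']
      exact ⟨fun _ => Or.inl rfl, fun _ => ⟨hp, rfl⟩⟩
    · constructor
      · rintro ⟨h1, h2⟩
        rw [slot_iff h h' (hother q h1 hqp) hT hs] at h2
        exact Or.inr ⟨h1, h2⟩
      · rintro (h1 | ⟨h1, h2⟩)
        · exact absurd h1 hqp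
        · refine ⟨h1, ?_⟩
          rw [slot_iff h h' (hother q h1 hqp) hT hs]
          exact h2

theorem tog : S_TOG := by
  intro L hL
  refine ⟨ff, gg, ?_, ?_⟩
  · intro s T n w p hT hTn hw hp hp'
    obtain ⟨hlen, hsaw⟩ := mem_SW.mp hw
    unfold DD at hp
    rw [Finset.mem_filter] at hp
    obtain ⟨hpL, k, ⟨h1, h2⟩ | ⟨h1, h2⟩⟩ := hp
    · have hk : k < w.length := by have := h1.1; omega
      obtain ⟨a1, a2⟩ := coreA hsaw h1
      have hff : ff w p = ins w k (sd p (Lip.PP w k) (lt w k)) := by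
        unfold ff
        rw [idx_eq h1]
      rw [hff]
      refine ⟨mem_SW.mpr ⟨by rw [Lip.ins_length w k _ hk, hlen], a1⟩, step hL hpL h1 a2 hT h2, ?_⟩
      unfold gg
      rw [idx_eq a2, del_ins hk]
    · exfalso
      apply hp'
      unfold N929.EX.OO
      rw [Finset.mem_filter]
      exact ⟨hpL, k, h1, h2⟩
  · intro s T n w' p hT hTn hw' hp
    obtain ⟨hlen, hsaw⟩ := mem_SW.mp hw'
    unfold N929.EX.OO at hp
    rw [Finset.mem_filter] at hp
    obtain ⟨hpL, k, h1, h2⟩ := hp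
    obtain ⟨a1, a2, a3, a4⟩ := coreB hsaw h1
    have hgg : gg w' p = del w' k := by
      unfold gg
      rw [idx_eq h1]
    rw [hgg]
    have hff : ff (del w' k) p = w' := by
      unfold ff
      rw [idx_eq a2]
      exact a3
    refine ⟨mem_SW.mpr ⟨by rw [a4, hlen]; omega, a1⟩, ?_, hff⟩
    have h3 := step hL hpL a2 (e := sd p (Lip.PP (del w' k) k) (lt (del w' k) k))
      (by rw [a3]; exact h1) hT (In_up h2)
    rw [a3] at h3
    exact h3

end

end Pool.Agent.N400.EX
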